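import Mathlib

namespace Pool.Agent.Results.MP_81ec8a_co.Counter

open Finset

/-- A strict digraph on `Fin n`, given by its arc set: no loops. -/
def Strict {n : ℕ} (D : Finset (Fin n × Fin n)) : Prop := ∀ v, (v, v) ∉ D

/-- `D` contains no directed path on `k + 1` distinct vertices. -/
def PathFree {n : ℕ} (k : ℕ) (D : Finset (Fin n × Fin n)) : Prop :=
  ¬ ∃ p : Fin (k + 1) → Fin n, Function.Injective p ∧ ∀ i : Fin k, (p i.castSucc, p i.succ) ∈ D

open Classical in
/-- The Turan number `ex(n, P_{k+1})`. -/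
noncomputable def ex (n k : ℕ) : ℕ :=
  (univ.filter fun D : Finset (Fin n × Fin n) => Strict D ∧ PathFree k D).sup card

/-- `D` is a digraph `T_{n,k}`. -/
def IsT {n : ℕ} (k : ℕ) (D : Finset (Fin n × Fin n)) : Prop :=
  ∃ part : Fin n → Fin k, (∀ i j, (univ.filter fun v => part v = i).card ≤
    (univ.filter fun v => part v = j).card + 1) ∧ ∀ u v, (u, v) ∈ D ↔ part u < part v

/-- The common arc count of the digraphs `T_{n,k}`. -/
def aT (n k : ℕ) : ℚ := (k - 1) / (2 * k) * n ^ 2 - (n % k : ℕ) * (k - (n % k : ℕ)) / (2 * k)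

def lv (v : Fin 60) : Fin 20 := ⟨if v.val < 10 then v.val else 10 + (v.val - 10) / 5, by
  split_ifs <;> omega⟩

def D : Finset (Fin 60 × Fin 60) :=
  univ.filter fun e => e.1 ≠ e.2 ∧ ((e.1.val < 10 ∧ e.2.val < 10) ∨ lv e.1 < lv e.2)

theorem memD (u v : Fin 60) :
    (u, v) ∈ D ↔ u ≠ v ∧ ((u.val < 10 ∧ v.val < 10) ∨ lv u < lv v) := by
  simp only [D, mem_filter, mem_univ, true_and]

theorem free : PathFree 20 D := by
  rintro ⟨p, hp, h⟩
  simp only [memD] at h
  have s1 : ∀ u v : Fin 60, (u ≠ v ∧ ((u.val < 10 ∧ v.val < 10) ∨ lv u < lv v)) → 10 ≤ (lv u).val → lv u < lv v := by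
    intro u v h1 h2
    rcases h1.2 with q | q
    · simp [lv, q.1] at h2; omega
    · exact q
  have s2 : ∀ i j : Fin 21, i < j → 10 ≤ (lv (p i)).val → lv (p i) < lv (p j) := by
    intro i j
    induction j using Fin.induction with
    | zero => intro q; exact absurd q (Fin.not_lt_zero _)
    | succ j ih =>
      intro q h2
      rcases (Fin.le_castSucc_iff.2 q).lt_or_eq with a | a
      · have b := ih a h2
        exact b.trans (s1 _ _ (h j) (h2.trans (le_of_lt b)))
      · subst a; exact s1 _ _ (h j) h2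
  have s3 : ∀ u v : Fin 60, lv u = lv v → (lv u).val < 10 → u = v := by decide +kernel
  have inj : Function.Injective fun i => lv (p i) := fun i j e => by
    by_cases c : (lv (p i)).val < 10
    · exact hp (s3 _ _ e c)
    · rcases lt_trichotomy i j with a | a | a
      · exact absurd e (s2 i j a (by omega)).ne
      · exact a
      · exact absurd e (s2 j i a (by simp only at e; rw [← e]; omega)).ne'
  have := Fintype.card_le_of_injective _ inj
  simp at this

theorem strict : Strict D := by
  intro v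
  rw [memD]
  exact fun h => h.1 rfl

theorem le_ex {n k : ℕ} (E : Finset (Fin n × Fin n)) (h1 : Strict E) (h2 : PathFree k E) :
    E.card ≤ ex n k := by
  classical
  exact le_sup (f := card) (mem_filter.2 ⟨mem_univ E, h1, h2⟩)

theorem result : aT 60 20 < ex 60 20 ∧
    ¬ ∀ k n : ℕ, 1 ≤ k → 3 * k ≤ n → (ex n k : ℚ) = aT n k ∧
      ∀ E : Finset (Fin n × Fin n), (Strict E ∧ PathFree k E ∧ E.card = ex n k) ↔ IsT k E := by
  classical
  have h1 : D.card ≤ ex 60 20 := le_ex D strict free
  have h2 : D.card = 1715 := by decide +kernel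
  have h3 : aT 60 20 < ex 60 20 := by
    have : (1715 : ℚ) ≤ ex 60 20 := by exact_mod_cast h2 ▸ h1
    refine lt_of_lt_of_le ?_ this
    norm_num [aT]
  exact ⟨h3, fun h => h3.ne' (h 20 60 (by norm_num) (by norm_num)).1⟩

end Pool.Agent.Results.MP_81ec8a_co.Counter
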